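import Mathlib
import Pool.Agent.Helper58.FX.Defs

set_option autoImplicit false
open MeasureTheory Filter Topology Helper17.LevelSets
open scoped InnerProductSpace ComplexConjugate ENNReal

/-! Statements of the pieces (project FX, MP_81910f_an). Replace `sorry` in your own file. -/

namespace Helper58.FX.St
open Helper58.FX

/-! ## A. Abstract Hilbert space -/

section Hilbert

variable {H : Type*} [NormedAddCommGroup H] [InnerProductSpace ℂ H] [CompleteSpace H]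
  {U V : H →ₗᵢ[ℂ] H}

/-- FX-1 -/
theorem weak_mixing (hUV : Commute U V) {w : H} (hw : w ∈ (Hc U V)ᗮ) (g : H) :
    Tendsto (mean (fun s => ‖⟪g, act U V s w⟫_ℂ‖ ^ 2)) atTop (𝓝 0) := by
  sorry

/-- FX-2 -/
theorem bohr (hUV : Commute U V) {v : H} (hv : v ∈ Hc U V) {δ : ℝ} (hδ : 0 < δ) :
    ∃ d : ℝ, 0 < d ∧ Low {s | ‖act U V s v - v‖ ≤ δ} d := by
  sorry

/-- FX-3 -/
theorem act_mem_Hc (hUV : Commute U V) (s : ℕ × ℕ) {v : H} (hv : v ∈ Hc U V) :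
    act U V s v ∈ Hc U V := by
  sorry

/-- FX-3 -/
theorem act_mem_Hc_orth (hUV : Commute U V) (s : ℕ × ℕ) {w : H} (hw : w ∈ (Hc U V)ᗮ) :
    act U V s w ∈ (Hc U V)ᗮ := by
  sorry

/-- FX-3 -/
theorem PP_act (hUV : Commute U V) (s : ℕ × ℕ) (v : H) :
    PP U V (act U V s v) = act U V s (PP U V v) := by
  sorry

/-- FX-4 -/
theorem mean_ergodic (hUV : Commute U V) {α β : ℂ} (hα : ‖α‖ = 1) (hβ : ‖β‖ = 1) (v : H) :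
    Tendsto (fun N : ℕ => ((N : ℂ) ^ 2)⁻¹ •
      ∑ s ∈ box N, ((conj α) ^ s.1 * (conj β) ^ s.2) • act U V s v) atTop
      (𝓝 (PE U V α β v)) := by
  sorry

/-- FX-5 -/
theorem approx_PE (v : H) {δ : ℝ} (hδ : 0 < δ) :
    ∃ Λ : Finset (ℂ × ℂ), (∀ l ∈ Λ, ‖l.1‖ = 1 ∧ ‖l.2‖ = 1) ∧
      ‖PP U V v‖ ^ 2 - δ ≤ ∑ l ∈ Λ, ‖PE U V l.1 l.2 v‖ ^ 2 := by
  sorry

/-- FX-5 -/
theorem bessel_PE (v : H) (Λ : Finset (ℂ × ℂ)) :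
    ∑ l ∈ Λ, ‖PE U V l.1 l.2 v‖ ^ 2 ≤ ‖PP U V v‖ ^ 2 := by
  sorry

/-- FX-6 -/
theorem compact_of_return (hUV : Commute U V) {v : H} (hv : ‖v‖ = 1)
    (h : ∃ ε : ℝ, 0 < ε ∧ ∀ η : ℝ, 0 < η → ¬ Up {s | ‖⟪v, act U V s v⟫_ℂ - 1‖ < η} ε) :
    v ∈ Hc U V := by
  sorry

/-- FX-8 (main inequality) -/
theorem main_ineq (hUV : Commute U V) (M : ℤ → (H →ₗᵢ[ℂ] H)) (hM0 : M 0 = 1)
    (hMadd : ∀ a b, M (a + b) = M a * M b)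
    (hact : ∀ s n, act U V s * M n = M (sc s * n) * act U V s)
    (one : H) (h1 : ‖one‖ = 1) (hU1 : U one = one) (hV1 : V one = one)
    (hfd : ∀ α β : ℂ, FiniteDimensional ℂ (Eg U V α β))
    (hsym : ∀ m : ℤ, ‖PP U V (M (-m) one)‖ = ‖PP U V (M m one)‖) (n : ℤ)
    (hcl : ∀ r : ℝ, 0 < r → ∀ ε : ℝ, 0 < ε → ∃ C : Set (ℤ → ℂ), C.Finite ∧
      Up {s | (fun k : ℤ => ⟪one, M (k * (sc s - 1)) one⟫_ℂ) ∉ C ∧
        r ≤ ‖⟪one, M (n * (sc s - 1)) one⟫_ℂ‖} ε) :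
    M (-n) (PP U V (M n one)) ∈ Hc U V := by
  sorry

end Hilbert

/-! ## B. Densities -/

/-- FX-7 -/
theorem mean_pick {a : ℕ × ℕ → ℝ} (ha : ∀ s, 0 ≤ a s) (h : Tendsto (mean a) atTop (𝓝 0))
    {Q : Set (ℕ × ℕ)} {d : ℝ} (hd : 0 < d) (hQ : Fre Q d) {η : ℝ} (hη : 0 < η) :
    ∃ s ∈ Q, a s < η := by
  sorry

/-- FX-7 -/
theorem up_of_mean {a : ℕ × ℕ → ℝ} (ha : ∀ s, 0 ≤ a s) (h : Tendsto (mean a) atTop (𝓝 0))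
    {η ε : ℝ} (hη : 0 < η) (hε : 0 < ε) : Up {s | η ≤ a s} ε := by
  sorry

/-- FX-7 -/
theorem up_mono {Q Q' : Set (ℕ × ℕ)} {ε ε' : ℝ} (h : Q ⊆ Q') (hε : ε' ≤ ε) (hQ : Up Q' ε') :
    Up Q ε := by
  sorry

/-- FX-7 -/
theorem up_union {Q Q' : Set (ℕ × ℕ)} {ε ε' : ℝ} (hQ : Up Q ε) (hQ' : Up Q' ε') :
    Up (Q ∪ Q') (ε + ε') := by
  sorry

/-- FX-7 -/
theorem up_biUnion {ι : Type*} (F : Finset ι) (Q : ι → Set (ℕ × ℕ)) (ε : ι → ℝ)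
    (h : ∀ i ∈ F, Up (Q i) (ε i)) : Up (⋃ i ∈ F, Q i) (∑ i ∈ F, ε i) := by
  sorry

/-- FX-7 -/
theorem up_double {Q : Set (ℕ × ℕ)} {ε : ℝ} (hQ : Up Q ε) :
    Up {s : ℕ × ℕ | (s.1 + s.1, s.2 + s.2) ∈ Q} (4 * ε) := by
  sorry

/-- FX-7 -/
theorem low_diff {Q Q' : Set (ℕ × ℕ)} {d ε : ℝ} (hQ : Low Q d) (hQ' : Up Q' ε) :
    Low (Q \ Q') (d - ε) := by
  sorry

/-- FX-7 -/
theorem up_finite {Q : Set (ℕ × ℕ)} (hQ : Q.Finite) {ε : ℝ} (hε : 0 < ε) : Up Q ε := by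
  sorry

/-- FX-7 -/
theorem pigeon {ι : Type*} {C : Set ι} (hC : C.Finite) {Q : Set (ℕ × ℕ)} (f : ℕ × ℕ → ι)
    (hf : ∀ s ∈ Q, f s ∈ C) {d : ℝ} (hd : 0 < d) (hQ : Low Q d) :
    ∃ c ∈ C, ∃ d' : ℝ, 0 < d' ∧ Fre {s | s ∈ Q ∧ f s = c} d' := by
  sorry

/-! ## C. The circle -/

section Circle

variable {μ : Measure Tor}

/-- FX-9 -/
theorem commute_UU (h2 : MeasurePreserving (T 2) μ μ) (h3 : MeasurePreserving (T 3) μ μ) :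
    Commute (UU h2) (UU h3) := by
  sorry

/-- FX-9 -/
theorem act_ev [IsProbabilityMeasure μ] (h2 : MeasurePreserving (T 2) μ μ)
    (h3 : MeasurePreserving (T 3) μ μ) (s : ℕ × ℕ) (n : ℤ) :
    act (UU h2) (UU h3) s (ev μ n) = ev μ (sc s * n) := by
  sorry

/-- FX-9 -/
theorem act_MM [IsProbabilityMeasure μ] (h2 : MeasurePreserving (T 2) μ μ)
    (h3 : MeasurePreserving (T 3) μ μ) (s : ℕ × ℕ) (n : ℤ) :
    act (UU h2) (UU h3) s * MM μ n = MM μ (sc s * n) * act (UU h2) (UU h3) s := by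
  sorry

/-- FX-9 -/
theorem MM_zero : MM μ 0 = 1 := by
  sorry

/-- FX-9 -/
theorem MM_add (a b : ℤ) : MM μ (a + b) = MM μ a * MM μ b := by
  sorry

/-- FX-9 -/
theorem MM_ev [IsProbabilityMeasure μ] (a b : ℤ) : MM μ a (ev μ b) = ev μ (a + b) := by
  sorry

/-- FX-9 -/
theorem inner_ev [IsProbabilityMeasure μ] (a b : ℤ) : ⟪ev μ a, ev μ b⟫_ℂ = ft μ (b - a) := by
  sorry

/-- FX-9 -/
theorem norm_ev [IsProbabilityMeasure μ] (a : ℤ) : ‖ev μ a‖ = 1 := by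
  sorry

/-- FX-9 -/
theorem ev_coe [IsProbabilityMeasure μ] (a : ℤ) :
    (ev μ a : Tor → ℂ) =ᵐ[μ] fun x => (fourier a x : ℂ) := by
  sorry

/-- FX-9 -/
theorem span_ev [IsProbabilityMeasure μ] :
    (Submodule.span ℂ (Set.range (ev μ))).topologicalClosure = ⊤ := by
  sorry

/-- FX-10 -/
theorem me [IsProbabilityMeasure μ] (h2 : MeasurePreserving (T 2) μ μ)
    (h3 : MeasurePreserving (T 3) μ μ) (n : ℤ) :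
    ∃ E : ℝ, Tendsto (fun L => EE (fun j => ft μ (n * j)) L) atTop (𝓝 (E : ℂ)) ∧
      Tendsto (fun N : ℕ => (∑ s ∈ box N, ft μ (n * (sc s - 1))) / (N : ℂ) ^ 2) atTop
        (𝓝 (E : ℂ)) ∧
      ‖ft μ n‖ ^ 2 ≤ E ∧ ∀ M : ℕ, 1 ≤ M → E ≤ (EE (fun j => ft μ (n * j)) M).re := by
  sorry

/-- FX-11 -/
theorem exists_square [IsProbabilityMeasure μ] (h2 : MeasurePreserving (T 2) μ μ)
    (h3 : MeasurePreserving (T 3) μ μ) :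
    ∃ ρ : Measure Tor, IsProbabilityMeasure ρ ∧ (∀ n, ft ρ n = ((‖ft μ n‖ ^ 2 : ℝ) : ℂ)) ∧
      MeasurePreserving (T 2) ρ ρ ∧ MeasurePreserving (T 3) ρ ρ := by
  sorry

/-- FX-11 -/
theorem exists_measure {q : ℤ → ℂ} (hq : PDZ q) (h0 : q 0 = 1) (h2 : ∀ n, q (2 * n) = q n)
    (h3 : ∀ n, q (3 * n) = q n) :
    ∃ ν : Measure Tor, IsProbabilityMeasure ν ∧ (∀ n, ft ν n = q n) ∧
      MeasurePreserving (T 2) ν ν ∧ MeasurePreserving (T 3) ν ν := by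
  sorry

/-- FX-11 -/
theorem pdz_ft [IsProbabilityMeasure μ] (h2 : MeasurePreserving (T 2) μ μ)
    (h3 : MeasurePreserving (T 3) μ μ) :
    PDZ (ft μ) ∧ ft μ 0 = 1 ∧ (∀ n, ft μ (2 * n) = ft μ n) ∧ (∀ n, ft μ (3 * n) = ft μ n) := by
  sorry

/-- FX-12 -/
theorem approx_erg [IsProbabilityMeasure μ] (h2 : MeasurePreserving (T 2) μ μ)
    (h3 : MeasurePreserving (T 3) μ μ) (hE : Erg (ft μ)) (n : ℤ) {η ε : ℝ} (hη : 0 < η)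
    (hε : 0 < ε) :
    ∃ M : ℕ, 1 ≤ M ∧ Up {s | η < (EE (fun j => ft μ (n * j * (sc s - 1))) M).re -
      ‖ft μ (n * (sc s - 1))‖ ^ 2} ε := by
  sorry

/-- FX-14 -/
theorem const_of_inv [IsProbabilityMeasure μ] (h2 : MeasurePreserving (T 2) μ μ)
    (h3 : MeasurePreserving (T 3) μ μ) (hE : Erg (ft μ)) (v : Lp ℂ 2 μ)
    (hv2 : UU h2 v = v) (hv3 : UU h3 v = v) : ∃ c : ℂ, v = c • ev μ 0 := by
  sorry

/-- FX-14 -/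
theorem atom_one [IsProbabilityMeasure μ] (h2 : MeasurePreserving (T 2) μ μ)
    (h3 : MeasurePreserving (T 3) μ μ) (hE : Erg (ft μ)) {x : Tor} (hx : μ {x} ≠ 0) :
    ∃ m : ℕ, 1 ≤ m ∧ ft μ m = 1 := by
  sorry

/-- FX-15 -/
theorem norm_const [IsProbabilityMeasure μ] (h2 : MeasurePreserving (T 2) μ μ)
    (h3 : MeasurePreserving (T 3) μ μ) (hE : Erg (ft μ)) {α β : ℂ} {v : Lp ℂ 2 μ}
    (hv : v ∈ Eg (UU h2) (UU h3) α β) : ∃ c : ℝ, ∀ᵐ x ∂μ, ‖v x‖ = c := by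
  sorry

/-- FX-15 -/
theorem fd_Eg [IsProbabilityMeasure μ] (h2 : MeasurePreserving (T 2) μ μ)
    (h3 : MeasurePreserving (T 3) μ μ) (hE : Erg (ft μ)) (α β : ℂ) :
    FiniteDimensional ℂ (Eg (UU h2) (UU h3) α β) := by
  sorry

/-- FX-16 -/
theorem inC_conj [IsProbabilityMeasure μ] (h2 : MeasurePreserving (T 2) μ μ)
    (h3 : MeasurePreserving (T 3) μ μ) {f : Tor → ℂ} (hf : InC h2 h3 f) :
    InC h2 h3 (fun x => conj (f x)) := by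
  sorry

/-- FX-16 -/
theorem norm_PP_neg [IsProbabilityMeasure μ] (h2 : MeasurePreserving (T 2) μ μ)
    (h3 : MeasurePreserving (T 3) μ μ) (m : ℤ) :
    ‖PP (UU h2) (UU h3) (ev μ (-m))‖ = ‖PP (UU h2) (UU h3) (ev μ m)‖ := by
  sorry

/-- FX-17 -/
theorem inC_mul [IsProbabilityMeasure μ] (h2 : MeasurePreserving (T 2) μ μ)
    (h3 : MeasurePreserving (T 3) μ μ) (hE : Erg (ft μ)) {f g : Tor → ℂ} (hf : InC h2 h3 f)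
    (hb : ∃ C : ℝ, ∀ᵐ x ∂μ, ‖f x‖ ≤ C) (hg : InC h2 h3 g) :
    InC h2 h3 (fun x => f x * g x) := by
  sorry

/-- FX-18 -/
theorem PP_bdd [IsProbabilityMeasure μ] (h2 : MeasurePreserving (T 2) μ μ)
    (h3 : MeasurePreserving (T 3) μ μ) {v : Lp ℂ 2 μ} (hv : ∀ᵐ x ∂μ, ‖v x‖ ≤ 1) :
    ∀ᵐ x ∂μ, ‖(PP (UU h2) (UU h3) v : Tor → ℂ) x‖ ≤ 1 := by
  sorry

/-- FX-19 -/
theorem upgrade [IsProbabilityMeasure μ] (h2 : MeasurePreserving (T 2) μ μ)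
    (h3 : MeasurePreserving (T 3) μ μ) (hE : Erg (ft μ)) (n : ℤ)
    (hn : PP (UU h2) (UU h3) (ev μ n) ≠ 0)
    (hc : MM μ (-n) (PP (UU h2) (UU h3) (ev μ n)) ∈ Hc (UU h2) (UU h3)) :
    ev μ n ∈ Hc (UU h2) (UU h3) := by
  sorry

/-- FX-20 -/
theorem classify {p : ℕ × ℕ → ℤ → ℂ}
    (hp : ∀ s, PDZ (p s) ∧ p s 0 = 1 ∧ (∀ n, p s (2 * n) = p s n) ∧ ∀ n, p s (3 * n) = p s n)
    {q : ℤ → ℂ} (hq : q ∈ closure (Set.range p))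
    (hD : ∀ n : ℤ, ∀ η : ℝ, 0 < η → ∃ M : ℕ, 1 ≤ M ∧
      (EE (fun j => q (n * j)) M).re - ‖q n‖ ^ 2 ≤ η) :
    (∀ n : ℤ, n ≠ 0 → q n = 0) ∨ (∃ m : ℕ, 1 ≤ m ∧ q m = 1) ∨ ExLike q := by
  sorry

/-- FX-22 -/
theorem classes [IsProbabilityMeasure μ] (h2 : MeasurePreserving (T 2) μ μ)
    (h3 : MeasurePreserving (T 3) μ μ) (hE : Erg (ft μ)) (hI : Iso (ft μ))
    (hNA : ∀ m : ℕ, 1 ≤ m → ∀ ε : ℝ, 0 < ε → ∃ η : ℝ, 0 < η ∧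
      Up {s | ‖ft μ (m * (sc s - 1)) - 1‖ < η} ε)
    (n : ℤ) (hn : n ≠ 0) (r : ℝ) (hr : 0 < r) (ε : ℝ) (hε : 0 < ε) :
    ∃ C : Set (ℤ → ℂ), C.Finite ∧
      Up {s | (fun k : ℤ => ft μ (k * (sc s - 1))) ∉ C ∧ r ≤ ‖ft μ (n * (sc s - 1))‖} ε := by
  sorry

/-- FX-23 -/
theorem chain [IsProbabilityMeasure μ] (h2 : MeasurePreserving (T 2) μ μ)
    (h3 : MeasurePreserving (T 3) μ μ) (hna : ∀ x : Tor, μ {x} = 0) {m : ℕ} (hm : 1 ≤ m)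
    (hc : ev μ m ∈ Hc (UU h2) (UU h3)) {W : Set (ℤ → ℂ)} (hW : IsOpen W) (hμW : ft μ ∈ W)
    (hiso : ∀ k : ℕ, dil (ft μ) ((k : ℤ) + 1) ∈ W → dil (ft μ) ((k : ℤ) + 1) = ft μ)
    (n : ℤ) (hn : n ≠ 0) : ft μ n = 0 := by
  sorry

end Circle

/-- FX-21 -/
theorem finite_cover {X : Type*} [TopologicalSpace X] {p : ℕ × ℕ → X}
    (hK : IsCompact (closure (Set.range p))) (D : ℤ → ℕ → X → ℝ)
    (hDc : ∀ n M, Continuous (D n M))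
    (hD : ∀ n : ℤ, ∀ η : ℝ, 0 < η → ∀ ε : ℝ, 0 < ε → ∃ M : ℕ, 1 ≤ M ∧
      Up {s | η < D n M (p s)} ε)
    (𝒱 : Set (Set X)) (h𝒱 : ∀ W ∈ 𝒱, IsOpen W)
    (hcov : ∀ q ∈ closure (Set.range p),
      (∀ n : ℤ, ∀ η : ℝ, 0 < η → ∃ M : ℕ, 1 ≤ M ∧ D n M q ≤ η) → ∃ W ∈ 𝒱, q ∈ W)
    {ε : ℝ} (hε : 0 < ε) :
    ∃ F : Finset (Set X), (∀ W ∈ F, W ∈ 𝒱) ∧ Up {s | ∀ W ∈ F, p s ∉ W} ε := by
  sorry

end Helper58.FX.St
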