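import Mathlib
import Pool.Agent.Helper58.FX.Defs

set_option autoImplicit false
open MeasureTheory Filter Topology Helper17.FU Helper17.FUGroup Helper91.TTT
open scoped InnerProductSpace ComplexConjugate ENNReal ComplexOrder

/-! Statements of the pieces about traces (project FX, MP_81910f_an). -/

namespace Helper58.FX.St
open Helper58.FX

variable {s2 s3 t : Equiv.Perm ℚ}

/-- FX-24 -/
theorem trace_limit (h2 : ∀ x : ℚ, s2 x = 2 * x) (h3 : ∀ x : ℚ, s3 x = 3 * x)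
    (ht : ∀ x : ℚ, t x = x + 1) {τ : GG s2 s3 t} (hτ : (τ : Equiv.Perm ℚ) = t)
    (x : ℕ → GG s2 s3 t → ℂ) (hx : ∀ i, x i ∈ TR (GG s2 s3 t))
    (hoff : ∀ i g, ¬ IsTr g → x i g = 0) {q : ℤ → ℂ} (hq : ExLike q)
    (hlim : ∀ n : ℤ, Tendsto (fun i => x i (τ ^ n)) atTop (𝓝 (q n))) :
    ∃ ψ : GG s2 s3 t → ℂ, ψ ∈ Set.extremePoints ℝ (TR (GG s2 s3 t)) ∧
      ψ ≠ Set.indicator ({1} : Set (GG s2 s3 t)) (fun _ => (1 : ℂ)) ∧
      ¬ FiniteDimensional ℂ (Submodule.span ℂ {F : GG s2 s3 t → ℂ | ∃ n : GG s2 s3 t,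
        IsTr n ∧ F = fun x => ψ (n * x)}) ∧
      (∀ g, Tendsto (fun i => x i g) atTop (𝓝 (ψ g))) ∧ ∀ n : ℤ, ψ (τ ^ n) = q n := by
  sorry

/-- FX-25 -/
theorem exlike_of_exotic (h2 : ∀ x : ℚ, s2 x = 2 * x) (h3 : ∀ x : ℚ, s3 x = 3 * x)
    (ht : ∀ x : ℚ, t x = x + 1) {τ : GG s2 s3 t} (hτ : (τ : Equiv.Perm ℚ) = t)
    {φ : GG s2 s3 t → ℂ} (hφ : φ ∈ Set.extremePoints ℝ (TR (GG s2 s3 t)))
    (hΔ : φ ≠ Set.indicator ({1} : Set (GG s2 s3 t)) (fun _ => (1 : ℂ)))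
    (hfd : ¬ FiniteDimensional ℂ (Submodule.span ℂ {F : GG s2 s3 t → ℂ | ∃ n : GG s2 s3 t,
      IsTr n ∧ F = fun x => φ (n * x)})) :
    ExLike (fun n : ℤ => φ (τ ^ n)) := by
  sorry

/-- FX-26 -/
theorem exists_injective_subseq {X : Type*} [TopologicalSpace X] [T2Space X] (x : ℕ → X) {y : X}
    (hx : Tendsto x atTop (𝓝 y)) (hne : ∀ i, x i ≠ y) :
    ∃ σ : ℕ → ℕ, StrictMono σ ∧ Function.Injective (fun i => x (σ i)) := by
  sorry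

/-- FX-26 -/
theorem exists_injective_subseq' {X Y : Type*} (x : ℕ → X) (f : X → Y)
    (hx : Function.Injective x) (hf : ∀ y : Y, {z | z ∈ Set.range x ∧ f z = y}.Finite) :
    ∃ σ : ℕ → ℕ, StrictMono σ ∧ Function.Injective (fun i => f (x (σ i))) := by
  sorry

/-- FX-27 -/
theorem finite_to_one {q : ℤ → ℂ} {m : ℕ} (hm : 1 ≤ m) :
    {p : ℤ → ℂ | ExLike p ∧ dil p m = q}.Finite := by
  sorry

end Helper58.FX.St
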